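import Pool.Agent.Y223.G.Stm3

/-!
# Project G: every valuation ring of the field of invariants contains a chart
-/

set_option autoImplicit false

namespace Pool.Agent.Y515.G

open Pool.Agent.Y223.G

/-- Extension of valuation rings along a field homomorphism. -/
lemma ext_val {Y K : Type} [Field Y] [Field K] (ι : Y →+* K) (V : ValuationSubring Y) :
    ∃ V' : ValuationSubring K, ∀ y, ι y ∈ V' ↔ y ∈ V := by
  obtain ⟨B, hB, hloc⟩ := (V.toLocalSubring.map ι).exists_le_valuationSubring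
  refine ⟨B, fun y => ⟨fun hy => ?_, fun hy => hB ⟨y, hy, rfl⟩⟩⟩
  by_contra hyV
  have hinv : y⁻¹ ∈ V := (V.mem_or_inv_mem y).resolve_left hyV
  have hy0 : y ≠ 0 := by
    rintro rfl
    exact hyV V.zero_mem
  have h1 : ι y⁻¹ ∈ (V.toLocalSubring.map ι).toSubring := ⟨y⁻¹, hinv, rfl⟩
  have hu : IsUnit (Subring.inclusion hB ⟨ι y⁻¹, h1⟩) := by
    refine isUnit_iff_exists_inv.mpr ⟨⟨ι y, hy⟩, Subtype.ext ?_⟩
    change ι y⁻¹ * ι y = 1
    rw [← map_mul, inv_mul_cancel₀ hy0, map_one]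
  obtain ⟨⟨x, w, hw, rfl⟩, hx⟩ := isUnit_iff_exists_inv.mp (hloc.1 _ hu)
  have h2 : ι y⁻¹ * ι w = 1 := congrArg Subtype.val hx
  rw [← map_mul] at h2
  have h3 : y⁻¹ * w = 1 := ι.injective (by rw [h2, map_one])
  have h4 : w = y := by
    rw [inv_mul_eq_one₀ hy0] at h3
    exact h3.symm
  exact hyV (h4 ▸ hw)

/-- An element integral over a subring of a valuation ring is in the valuation ring. -/
lemma int_mem {k K : Type} [CommRing k] [Field K] [Algebra k K] (V : ValuationSubring K)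
    (hk : ∀ c : k, algebraMap k K c ∈ V) {x : K} (hx : IsIntegral k x) : x ∈ V := by
  have h1 : IsIntegral V.toLocalSubring.toSubring x := by
    obtain ⟨P, hPm, hP0⟩ := hx
    let f : k →+* V.toLocalSubring.toSubring := (algebraMap k K).codRestrict _ hk
    refine ⟨P.map f, hPm.map f, ?_⟩
    rw [Polynomial.eval₂_map]
    exact hP0
  exact LocalSubring.mem_of_isMax_of_isIntegral V.isMax_toLocalSubring h1

lemma RR_mono {k O K : Type} [CommRing k] [CommRing O] [Field K] [Algebra O K] [Algebra k K]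
    {τ : K ≃ₐ[k] K} {p l : ℕ} {𝔓 : Ideal O} {C C' : Subalgebra O K} (h : C ≤ C') :
    RR k τ p 𝔓 l C ≤ RR k τ p 𝔓 l C' := by
  refine Algebra.adjoin_mono ?_
  rintro f (hf | ⟨a, c, hc, ha, rfl⟩)
  · exact Or.inl hf
  · exact Or.inr ⟨a, c, h hc, ha, rfl⟩

lemma iter_mul {k K : Type} [CommRing k] [Field K] [Algebra k K] (τ : K ≃ₐ[k] K) (j : ℕ)
    (x y : K) : τ^[j] (x * y) = τ^[j] x * τ^[j] y := iterate_map_mul τ j x y

lemma iter_eq {k K : Type} [CommRing k] [Field K] [Algebra k K] (τ : K ≃ₐ[k] K) (j : ℕ)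
    (x : K) : τ^[j] x = ((τ : K →+* K) ^ j) x := by
  rw [RingHom.coe_pow]
  rfl

theorem t_GVAL : S_EXF → S_GVAL := by
  intro hEXF k O L Y K _ _ _ _ _ _ _ _ _ _ _ _ _ _ ι p τ t m z H
  obtain ⟨d, Φ, hd, hfin, hFS, hEV⟩ := hEXF k K m z H.z0 (p - 1)
  refine ⟨d, {F ∈ Φ | F ≠ 0}, hd, hfin.subset (Set.sep_subset _ _),
    fun F hF => ⟨hFS F hF.1, hF.2⟩, ?_⟩
  intro V hVk
  have hp0 : 0 < p := H.pp.pos
  obtain ⟨V', hV'⟩ := ext_val (ι : Y →+* K) V
  have hkV : ∀ c : k, algebraMap k K c ∈ V' := fun c => by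
    have h1 : algebraMap k K c = (ι : Y →+* K) (algebraMap k Y c) := (ι.commutes c).symm
    rw [h1]
    exact (hV' _).2 (hVk c)
  have hOV : ∀ o : O, algebraMap O K o ∈ V' := fun o => by
    have := H.fin
    exact int_mem V' hkV ((Algebra.IsIntegral.isIntegral (R := k) o).algebraMap)
  have hτk : ∀ (i : ℕ) (c : k), τ^[i] (algebraMap k K c) = algebraMap k K c := fun i c => by
    induction i with
    | zero => rfl
    | succ i ih => rw [Function.iterate_succ_apply', ih, τ.commutes]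
  have hτO : ∀ (i : ℕ) (o : O), τ^[i] (algebraMap O K o) = algebraMap O K (t^[i] o) := fun i o => by
    induction i with
    | zero => rfl
    | succ i ih => rw [Function.iterate_succ_apply', ih, H.com, Function.iterate_succ_apply']
  obtain ⟨F, hF, hF0, hx⟩ := hEV (fun i => V'.comap ((τ : K →+* K) ^ (i : ℕ))) (fun i c => by
    rw [ValuationSubring.mem_comap, ← iter_eq, hτk]
    exact hkV c)
  refine ⟨F, ⟨hF, hF0⟩, ?_⟩
  intro s hs hsV 𝔓 l x hmx
  have hs0 : algebraMap k K s ≠ 0 := fun h => hs (H.injk (by rw [h, map_zero]))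
  have hsV' : (algebraMap k K s)⁻¹ ∈ V' := by
    have h1 : (algebraMap k K s)⁻¹ = (ι : Y →+* K) ((algebraMap k Y s)⁻¹) := by
      rw [map_inv₀]
      exact congrArg _ (ι.commutes s).symm
    rw [h1]
    exact (hV' _).2 hsV
  -- the ratios of the monomials are in all the conjugates of the valuation ring
  have hgen : ∀ (j : ℕ), ∀ y ∈ MN z d, τ^[j] (y / F) ∈ V' := by
    intro j y hy
    have h1 : τ^[j % p] (y / F) = τ^[j] (y / F) :=
      Function.IsPeriodicPt.iterate_mod_apply (f := τ) (n := p) (x := y / F) (H.ord _) j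
    have h2 := hx ⟨j % p, by have := Nat.mod_lt j hp0; omega⟩ y hy
    rw [ValuationSubring.mem_comap, ← iter_eq] at h2
    rw [← h1]
    exact h2
  have hOL : ∀ (j : ℕ) (r : OL O (K := K) s), τ^[j] (r : K) ∈ V' := by
    rintro j ⟨r, n, y, h⟩
    change τ^[j] r ∈ V'
    have h1 := congrArg (τ^[j]) h
    rw [← map_pow, iter_mul, hτk, hτO, map_pow] at h1
    have h2 : τ^[j] r = ((algebraMap k K s)⁻¹) ^ n * algebraMap O K (t^[j] y) := by
      rw [← h1, ← mul_assoc, ← mul_pow, inv_mul_cancel₀ hs0, one_pow, one_mul]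
    rw [h2]
    exact V'.mul_mem _ _ (pow_mem hsV' n) (hOV _)
  let W : Subalgebra (OL O (K := K) s) K :=
    { carrier := {x | ∀ j : ℕ, τ^[j] x ∈ V'}
      mul_mem' := by
        intro a b ha hb j
        rw [iter_mul]
        exact V'.mul_mem _ _ (ha j) (hb j)
      add_mem' := by
        intro a b ha hb j
        rw [iterate_map_add]
        exact V'.add_mem _ _ (ha j) (hb j)
      algebraMap_mem' := fun r j => hOL j r }
  have hWτ : ∀ c ∈ W, τ c ∈ W := by
    intro c hc j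
    rw [← Function.iterate_succ_apply]
    exact hc (j + 1)
  have hCW : CC (fun i => AF (OL O (K := K) s) (fun j => τ^[i] (z j)) d (τ^[i] F)) p ≤ W := by
    unfold CC
    refine iSup_le fun i => ?_
    unfold AF
    rw [Algebra.adjoin_le_iff]
    rintro y ⟨x', ⟨a, ha, rfl⟩, rfl⟩ j
    have h1 : (∏ i', τ^[(i : ℕ)] (z i') ^ a i') / τ^[(i : ℕ)] F
        = τ^[(i : ℕ)] ((∏ i', z i' ^ a i') / F) := by
      rw [iter_eq, iter_eq, map_div₀, map_prod]
      simp_rw [iter_eq, map_pow]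
    rw [h1, ← Function.iterate_add_apply]
    exact hgen _ _ ⟨a, ha, rfl⟩
  have h1 : hm 0 (ι x) ∈ GR O p τ z s 𝔓 l d F := by
    have h2 : AddMonoidAlgebra.mapAlgHom (R := k) ℤ ι (hm 0 x) ∈ GR O p τ z s 𝔓 l d F := hmx
    have h3 : AddMonoidAlgebra.mapAlgHom (R := k) ℤ ι (hm 0 x) = hm 0 (ι x) :=
      AddMonoidAlgebra.mapAlgHom_single _ _ _
    rwa [h3] at h2
  have h2 : ι x ∈ W := RR_mem_C hWτ (RR_mono hCW h1)
  exact (hV' x).1 (h2 0)

end Pool.Agent.Y515.G
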